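import Mathlib
import Pool.Agent.Y189.SP.Component

/-!
# Codegree `n / k` does not force a spanning tight component, for every `k ≥ 6`

For every `k ≥ 6` and every `n ≥ k (k - 1) (k + 2)` there is a `k`-graph on `n` vertices with
minimum codegree at least `n / (k - 1) - (k + 2)`, which is at least `n / k`, and in which every
tight component misses a vertex.  (The starting file `S06872` treats `k = 5` and `n = 180`.)
-/

set_option autoImplicit false

namespace Pool.Agent.Results.MP_00c8a8_co.EveryUniformity

/-- The tight component of the edge `e` of the `k`-graph with set of edges `H` covers all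
vertices: every vertex lies in an edge `f` which is reached from `e` by a sequence of edges in
which consecutive ones have at least `k - 1` common vertices. -/
def SpanningComponent (k : ℕ) {n : ℕ} (H : Finset (Finset (Fin n))) (e : Finset (Fin n)) : Prop :=
  ∀ v : Fin n, ∃ f ∈ H, Relation.ReflTransGen
    (fun a b : Finset (Fin n) => a ∈ H ∧ b ∈ H ∧ k - 1 ≤ (a ∩ b).card) e f ∧ v ∈ f

/-- **Codegree `n / k` does not force a spanning tight component, for every `k ≥ 6`.**  For every
`k ≥ 6` and `n ≥ k (k - 1) (k + 2)` there is a `k`-graph on `n` vertices all of whose codegrees `d`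
satisfy `d ≥ n / k` and even `d ≥ n / (k - 1) - (k + 2)`, in which no tight component covers all
vertices. -/
theorem result : ∀ k : ℕ, 6 ≤ k → ∀ n : ℕ, k * (k - 1) * (k + 2) ≤ n →
    ∃ H : Finset (Finset (Fin n)),
    (∀ e ∈ H, e.card = k) ∧
    (∀ S : Finset (Fin n), S.card = k - 1 →
      n ≤ k * (H.filter (fun e => S ⊆ e)).card ∧
        n ≤ (k - 1) * ((H.filter (fun e => S ⊆ e)).card + k + 2)) ∧
    ∀ e ∈ H, ¬ SpanningComponent k H e := by
  classical
  intro k hk n hn
  rcases Nat.lt_or_ge k 7 with h7 | h7
  · obtain rfl : k = 6 := by omega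
    refine ⟨Pool.Agent.Y189.SP.Tight6.HN n,
      fun e he => (Pool.Agent.Y189.SP.Tight6.mem_HN.1 he).1, ?_, ?_⟩
    · intro S hS
      have h1 := Pool.Agent.Y189.SP.Tight6.codeg S hS
      have h2 : ((Pool.Agent.Y189.SP.Tight6.HN n).filter fun e => S ⊆ e).card =
        ((Pool.Agent.Y189.SP.Tight6.HN n).filter (fun e => S ⊆ e)).card := rfl
      constructor
      · omega
      · omega
    · intro e he hs
      exact Pool.Agent.Y189.SP.Component.six n (by omega) ⟨e, he, hs⟩
  · obtain ⟨q, rfl⟩ : ∃ q, k = 7 + q := ⟨k - 7, by omega⟩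
    obtain ⟨φ, c, D, hdir⟩ := Pool.Agent.Y189.SP.Component.exists_dev q
    have hn2 : 2 * (7 + q) ≤ n := by
      refine le_trans ?_ hn
      have h3 : 2 ≤ 7 + q - 1 := by omega
      have h4 : 1 ≤ 7 + q + 2 := by omega
      calc 2 * (7 + q) = (7 + q) * 2 * 1 := by ring
        _ ≤ (7 + q) * (7 + q - 1) * (7 + q + 2) := by gcongr
    refine ⟨Pool.Agent.Y189.SP.Extract.HN (7 + q) (7 + q) φ n,
      fun e he => (Pool.Agent.Y189.SP.Extract.mem_HN.1 he).1, ?_, ?_⟩
    · intro S hS
      have h1 := Pool.Agent.Y189.SP.Extract.codeg (by omega) (by omega) D hdir S hS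
      have key : n ≤ (7 + q - 1) *
          (((Pool.Agent.Y189.SP.Extract.HN (7 + q) (7 + q) φ n).filter
            (fun e => S ⊆ e)).card + (7 + q) + 2) := by
        have h5 : n < (7 + q - 1) * (n / (7 + q - 1) + 1) :=
          Nat.lt_mul_div_succ n (by omega)
        refine le_trans h5.le (Nat.mul_le_mul_left _ ?_)
        omega
      exact ⟨Pool.Agent.Y189.SP.Component.arith hk hn key, key⟩
    · intro e he hs
      exact Pool.Agent.Y189.SP.Component.gen (7 + q) hk φ n hn2 ⟨e, he, hs⟩

end Pool.Agent.Results.MP_00c8a8_co.EveryUniformity
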